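import Pool.Agent.Q185.RP6.Check
set_option autoImplicit false
namespace Pool.Agent.Q185.RP6
theorem runG : allB nJ (fun j => chkG j) = true := by decide +kernel
end Pool.Agent.Q185.RP6
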