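import Pool.Agent.Q185.RP6.Stm
import Pool.Agent.Q185.RP6.RunV
import Pool.Agent.Q185.RP6.RunN
import Pool.Agent.Q185.RP6.RunG

set_option autoImplicit false

namespace Pool.Agent.Q185.RP6

open Finset

theorem nJ_eq : nJ = 850 := rfl

theorem bit_cases (T k : ℕ) : bit T k = 0 ∨ bit T k = 1 := by
  unfold bit
  have : Nat.mod (Nat.shiftRight T k) 2 < 2 := Nat.mod_lt _ (by norm_num)
  omega

theorem S_cases (j i : ℕ) : S j i = 0 ∨ S j i = 1 ∨ S j i = -1 := by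
  unfold S
  rw [Int.subNatNat_eq_coe]
  rcases bit_cases PT (Nat.add (Nat.mul 42 j) i) with h | h <;>
    rcases bit_cases MT (Nat.add (Nat.mul 42 j) i) with h' | h' <;> rw [h, h'] <;> norm_num

theorem rot_lt (i g : ℕ) (hi : i < 42) : rot i g < 42 := by
  have : rot i g = 7 * (i / 7) + ((i % 7 + 7 - g) % 7) := rfl
  omega

theorem rot_def (i g : ℕ) : rot i g = 7 * (i / 7) + ((i % 7 + 7 - g) % 7) := rfl

theorem rot_rot (i g g' : ℕ) (hg : g < 7) (hg' : g' < 7) : rot (rot i g) g' = rot i ((g + g') % 7) := by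
  rw [rot_def, rot_def, rot_def]
  omega

theorem rot_inj (i i' g : ℕ) (hg : g < 7) (h : rot i g = rot i' g) : i = i' := by
  rw [rot_def, rot_def] at h
  omega

theorem rot_zero (i : ℕ) : rot i 0 = i := by
  rw [rot_def]; omega

theorem X_def (i k : ℕ) : X i k = R (i / 7) ((k + 7 - i % 7) % 7) := rfl

theorem X_rot (i k g : ℕ) (hk : k < 7) (hg : g < 7) : X i ((k + g) % 7) = X (rot i g) k := by
  rw [X_def, X_def, rot_def]
  have h1 : (7 * (i / 7) + (i % 7 + 7 - g) % 7) / 7 = i / 7 := by omega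
  have h2 : ((k + g) % 7 + 7 - i % 7) % 7 = (k + 7 - (7 * (i / 7) + (i % 7 + 7 - g) % 7) % 7) % 7 := by omega
  rw [h1, h2]

theorem sgE_cases (e : ℕ) : sgE e = 1 ∨ sgE e = -1 := by
  unfold sgE
  cases Nat.beq e 0
  · right; rfl
  · left; rfl

theorem sgE_sq (e : ℕ) : sgE e * sgE e = 1 := by
  rcases sgE_cases e with h | h <;> rw [h] <;> norm_num

theorem cval (j : ℕ) (hj : j < nJ) : 0 < C j := by
  have h := allB_spec _ nJ runP j hj
  exact of_decide_eq_true h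

theorem vval (j : ℕ) (hj : j < nJ) (i : ℕ) (hi : i < 42) :
    (S j i = 0 → dot j i < C j ∧ - C j < dot j i) ∧ (S j i ≠ 0 → dot j i = S j i * C j) := by
  have h := allB_spec _ 42 (allB_spec _ nJ runV j hj) i hi
  constructor
  · intro h0
    rw [decide_eq_true h0, cond_true, Bool.and_eq_true] at h
    exact ⟨of_decide_eq_true h.1, of_decide_eq_true h.2⟩
  · intro h0
    rw [decide_eq_false h0, cond_false] at h
    exact of_decide_eq_true h

theorem gval (j : ℕ) (hj : j < nJ) (i i' : ℕ) (hi : i < 42) (hi' : i' < 42) (h0 : S j i ≠ 0) (h0' : S j i' ≠ 0) :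
    S j i * S j i' = SG i i' := by
  have h := allB_spec _ 42 (allB_spec _ nJ runG j hj) i hi
  rw [decide_eq_false h0, cond_false] at h
  have h2 := allB_spec _ 42 h i' hi'
  rw [decide_eq_false h0', cond_false] at h2
  exact of_decide_eq_true h2

theorem nval (j : ℕ) (hj : j < nJ) (i : ℕ) (hi : i < 42) (h0 : S j i ≠ 0) :
    ∃ j' g' e', j' < nJ ∧ g' < 7 ∧ e' < 2 ∧ ST j' g' e' i ≠ S j i ∧
      ∀ i', i' < 42 → i' ≠ i → S j i' ≠ 0 → ST j' g' e' i' = S j i' := by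
  have h := allB_spec _ nJ runN j hj
  unfold chkN at h
  rw [Bool.and_eq_true] at h
  have h1 := allB_spec _ 42 h.2 i hi
  rw [decide_eq_false h0, cond_false] at h1
  obtain ⟨a, ha, ha2⟩ := anyB_spec _ 7 h1
  have hia : i = Nat.mod (nbr j a) 64 := Nat.eq_of_beq_eq_true ha2
  have h2 := allB_spec _ 7 h.1 a ha
  unfold chkN1 at h2
  rw [Bool.and_eq_true, Bool.and_eq_true] at h2
  obtain ⟨p1, p2, p3⟩ := h2
  refine ⟨Nat.shiftRight (nbr j a) 10, Nat.mod (Nat.shiftRight (nbr j a) 7) 8,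
    Nat.mod (Nat.shiftRight (nbr j a) 6) 2, ?_, ?_, Nat.mod_lt _ (by norm_num), ?_, ?_⟩
  · exact Nat.le_of_ble_eq_true p1
  · exact Nat.le_of_ble_eq_true p2
  · have h3 := allB_spec _ 42 p3 i hi
    rw [decide_eq_false h0, cond_false, ha2, cond_true] at h3
    intro h4
    rw [decide_eq_true h4] at h3
    exact absurd h3 (by decide)
  · intro i' hi' hne h0'
    have h3 := allB_spec _ 42 p3 i' hi'
    have h5 : Nat.beq i' (Nat.mod (nbr j a) 64) = false := by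
      cases hb : Nat.beq i' (Nat.mod (nbr j a) 64) with
      | false => rfl
      | true => exact absurd (by rw [Nat.eq_of_beq_eq_true hb, ← hia]) hne
    rw [decide_eq_false h0', cond_false, h5, cond_false] at h3
    exact of_decide_eq_true h3

theorem count_spec (p : ℕ → Prop) [DecidablePred p] : ∀ n : ℕ,
    (Nat.rec 0 (fun i ih => Nat.add (cond (decide (p i)) 0 1) ih) n : ℕ) = ((range n).filter fun i => ¬ p i).card
  | 0 => by simp
  | n + 1 => by
      have ih := count_spec p n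
      have h1 : (Nat.rec 0 (fun i ih => Nat.add (cond (decide (p i)) 0 1) ih) (n + 1) : ℕ)
        = (cond (decide (p n)) 0 1) + (Nat.rec 0 (fun i ih => Nat.add (cond (decide (p i)) 0 1) ih) n : ℕ) := rfl
      rw [h1, ih, Finset.range_add_one, Finset.filter_insert]
      by_cases h : p n
      · rw [decide_eq_true h, cond_true, if_neg (not_not.2 h), zero_add]
      · rw [decide_eq_false h, cond_false, if_pos h, Finset.card_insert_of_notMem, add_comm]
        intro h2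
        exact absurd (Finset.mem_range.1 (Finset.mem_filter.1 h2).1) (lt_irrefl n)

theorem countS (j : ℕ) (hj : j < nJ) : ((range 42).filter fun i => ¬ S j i = 0).card = 7 := by
  have h := allB_spec _ nJ runC j hj
  have h1 := Nat.eq_of_beq_eq_true h
  rw [← count_spec]
  exact h1

theorem usedS (o : ℕ) (ho : o < 6) : ∃ j t, j < nJ ∧ t < 7 ∧ S j (7 * o + t) ≠ 0 := by
  have h := allB_spec _ 6 runU o ho
  obtain ⟨j, hj, h1⟩ := anyB_spec _ nJ h
  obtain ⟨t, ht, h2⟩ := anyB_spec _ 7 h1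
  refine ⟨j, t, hj, ht, ?_⟩
  intro h3
  have h4 : S j (Nat.add (Nat.mul 7 o) t) = 0 := h3
  rw [decide_eq_true h4] at h2
  exact absurd h2 (by decide)

theorem SG_rot (i i' g : ℕ) (hg : g < 7) : SG (rot i g) (rot i' g) = SG i i' := by
  have h1 : ∀ a b : ℕ, SG a b = sgE (bit GT (7 * (6 * (a / 7) + (b / 7)) + ((b % 7 + 7 - a % 7) % 7))) := fun a b => rfl
  rw [h1, h1]
  congr 2
  rw [rot_def, rot_def]
  omega

/-- index set of the facets -/
abbrev JJ : Type := Fin nJ × Fin 7 × Fin 2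

/-- the linear functional of a facet -/
noncomputable def phiJ (j : JJ) : EuclideanSpace ℝ (Fin 7) →ₗ[ℝ] ℝ :=
  ∑ k : Fin 7, (((sgE j.2.2.1 : ℤ) : ℝ) / ((C j.1.1 : ℤ) : ℝ) * ((N j.1.1 k.1 : ℤ) : ℝ)) •
    (EuclideanSpace.proj (k + j.2.1) : EuclideanSpace ℝ (Fin 7) →L[ℝ] ℝ).toLinearMap

/-- the vectors -/
noncomputable def xJ (i : Fin 42) : EuclideanSpace ℝ (Fin 7) := WithLp.toLp 2 fun k => ((X i.1 k.1 : ℤ) : ℝ)

theorem phi_x (j : JJ) (i : Fin 42) :
    phiJ j (xJ i) = ((sgE j.2.2.1 : ℤ) : ℝ) / ((C j.1.1 : ℤ) : ℝ) * ((dot j.1.1 (rot i.1 j.2.1.1) : ℤ) : ℝ) := by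
  unfold phiJ
  rw [LinearMap.sum_apply]
  have h1 : ∀ k : Fin 7, ((((sgE j.2.2.1 : ℤ) : ℝ) / ((C j.1.1 : ℤ) : ℝ) * ((N j.1.1 k.1 : ℤ) : ℝ)) •
    (EuclideanSpace.proj (k + j.2.1) : EuclideanSpace ℝ (Fin 7) →L[ℝ] ℝ).toLinearMap) (xJ i)
      = ((sgE j.2.2.1 : ℤ) : ℝ) / ((C j.1.1 : ℤ) : ℝ) * (((N j.1.1 k.1 * X (rot i.1 j.2.1.1) k.1 : ℤ)) : ℝ) := by
    intro k
    have h2 : ((EuclideanSpace.proj (k + j.2.1) : EuclideanSpace ℝ (Fin 7) →L[ℝ] ℝ).toLinearMap) (xJ i)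
        = ((X i.1 (k + j.2.1).1 : ℤ) : ℝ) := rfl
    rw [LinearMap.smul_apply, smul_eq_mul, h2, Fin.val_add, X_rot i.1 k.1 j.2.1.1 k.2 j.2.1.2]
    push_cast
    ring
  rw [Finset.sum_congr rfl fun k _ => h1 k, ← Finset.mul_sum, ← Int.cast_sum]
  congr 2
  rw [Fin.sum_univ_seven]
  rfl

/-- the fan of the polytope -/
noncomputable def theFan : Fan 42 JJ (EuclideanSpace ℝ (Fin 7)) where
  x := xJ
  s := fun j i => ST j.1.1 j.2.1.1 j.2.2.1 i.1
  φ := phiJ
  sgn := by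
    intro j i
    unfold ST
    rcases sgE_cases j.2.2.1 with h | h <;> rcases S_cases j.1.1 (rot i.1 j.2.1.1) with h' | h' | h' <;> rw [h, h'] <;> norm_num
  on := by
    intro j i h
    have hS : S j.1.1 (rot i.1 j.2.1.1) ≠ 0 := by
      intro h0; apply h; unfold ST; rw [h0, mul_zero]
    rw [phi_x, (vval j.1.1 j.1.2 _ (rot_lt _ _ i.2)).2 hS]
    have hC : ((C j.1.1 : ℤ) : ℝ) ≠ 0 := by
      have := cval j.1.1 j.1.2
      exact_mod_cast this.ne'
    unfold ST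
    push_cast
    field_simp
  off := by
    intro j i h
    have hS : S j.1.1 (rot i.1 j.2.1.1) = 0 := by
      unfold ST at h
      rcases mul_eq_zero.1 h with h0 | h0
      · exfalso
        rcases sgE_cases j.2.2.1 with h1 | h1 <;> rw [h1] at h0 <;> norm_num at h0
      · exact h0
    obtain ⟨h1, h2⟩ := (vval j.1.1 j.1.2 _ (rot_lt i.1 j.2.1.1 i.2)).1 hS
    have hC : (0 : ℝ) < ((C j.1.1 : ℤ) : ℝ) := by
      have := cval j.1.1 j.1.2
      exact_mod_cast this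
    have h3 : |((dot j.1.1 (rot i.1 j.2.1.1) : ℤ) : ℝ)| < ((C j.1.1 : ℤ) : ℝ) := by
      rw [abs_lt]
      constructor
      · exact_mod_cast h2
      · exact_mod_cast h1
    have h4 : |((sgE j.2.2.1 : ℤ) : ℝ)| = 1 := by
      rcases sgE_cases j.2.2.1 with h | h <;> rw [h] <;> norm_num
    rw [phi_x, abs_mul, abs_div, h4, abs_of_pos hC, one_div, inv_mul_eq_div, div_lt_one hC]
    exact h3
  neg := by
    intro j
    refine ⟨(j.1, j.2.1, 1 - j.2.2), ?_⟩
    intro i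
    show ST j.1.1 j.2.1.1 (1 - j.2.2 : Fin 2).1 i.1 = - ST j.1.1 j.2.1.1 j.2.2.1 i.1
    unfold ST
    have : sgE (1 - j.2.2 : Fin 2).1 = - sgE j.2.2.1 := by
      generalize j.2.2 = e
      fin_cases e <;> rfl
    rw [this, neg_mul]
  nb := by
    intro j i h
    have hS : S j.1.1 (rot i.1 j.2.1.1) ≠ 0 := by
      intro h0; apply h
      show ST j.1.1 j.2.1.1 j.2.2.1 i.1 = 0
      unfold ST; rw [h0, mul_zero]
    obtain ⟨j', g', e', hj', hg', he', h1, h2⟩ := nval j.1.1 j.1.2 _ (rot_lt i.1 j.2.1.1 i.2) hS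
    have hT : ∀ k : ℕ, ST j' ((j.2.1.1 + g') % 7) ((j.2.2.1 + e') % 2) k = sgE j.2.2.1 * ST j' g' e' (rot k j.2.1.1) := by
      intro k
      unfold ST
      rw [rot_rot k _ _ j.2.1.2 hg', ← mul_assoc]
      congr 1
      have he := j.2.2.2
      generalize j.2.2.1 = e at he
      interval_cases e <;> interval_cases e' <;> rfl
    refine ⟨(⟨j', hj'⟩, ⟨(j.2.1.1 + g') % 7, Nat.mod_lt _ (by norm_num)⟩, ⟨(j.2.2.1 + e') % 2, Nat.mod_lt _ (by norm_num)⟩), ?_, ?_⟩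
    · show ST j' ((j.2.1.1 + g') % 7) ((j.2.2.1 + e') % 2) i.1 ≠ ST j.1.1 j.2.1.1 j.2.2.1 i.1
      rw [hT]
      intro h3
      apply h1
      have h4 : sgE j.2.2.1 * (sgE j.2.2.1 * ST j' g' e' (rot i.1 j.2.1.1)) = sgE j.2.2.1 * ST j.1.1 j.2.1.1 j.2.2.1 i.1 := by rw [h3]
      unfold ST at h4 ⊢
      rw [← mul_assoc, sgE_sq, one_mul, ← mul_assoc (sgE j.2.2.1) (sgE j.2.2.1), sgE_sq, one_mul] at h4
      exact h4
    · intro i' hne hs
      have hS' : S j.1.1 (rot i'.1 j.2.1.1) ≠ 0 := by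
        intro h0; apply hs
        show ST j.1.1 j.2.1.1 j.2.2.1 i'.1 = 0
        unfold ST; rw [h0, mul_zero]
      show ST j' ((j.2.1.1 + g') % 7) ((j.2.2.1 + e') % 2) i'.1 = ST j.1.1 j.2.1.1 j.2.2.1 i'.1
      rw [hT, h2 _ (rot_lt i'.1 j.2.1.1 i'.2) (fun h5 => hne (Fin.ext (rot_inj _ _ _ j.2.1.2 h5))) hS']
      rfl
  card := by
    intro j
    rw [finrank_euclideanSpace, Fintype.card_fin]
    refine Eq.trans ?_ (countS j.1.1 j.1.2)
    refine Finset.card_bij (fun i _ => rot i.1 j.2.1.1) ?_ ?_ ?_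
    · intro i hi
      rw [Finset.mem_filter] at hi ⊢
      refine ⟨Finset.mem_range.2 (rot_lt _ _ i.2), ?_⟩
      intro h0
      apply hi.2
      show ST j.1.1 j.2.1.1 j.2.2.1 i.1 = 0
      unfold ST; rw [h0, mul_zero]
    · intro i _ i' _ h
      exact Fin.ext (rot_inj _ _ _ j.2.1.2 h)
    · intro k hk
      rw [Finset.mem_filter, Finset.mem_range] at hk
      have hg := j.2.1.2
      have hr : rot (7 * (k / 7) + (k % 7 + j.2.1.1) % 7) j.2.1.1 = k := by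
        rw [rot_def]; omega
      refine ⟨⟨7 * (k / 7) + (k % 7 + j.2.1.1) % 7, by omega⟩, ?_, hr⟩
      rw [Finset.mem_filter]
      refine ⟨Finset.mem_univ _, ?_⟩
      show ST j.1.1 j.2.1.1 j.2.2.1 (7 * (k / 7) + (k % 7 + j.2.1.1) % 7) ≠ 0
      unfold ST
      rw [hr]
      refine mul_ne_zero ?_ hk.2
      rcases sgE_cases j.2.2.1 with h1 | h1 <;> rw [h1] <;> norm_num
  nobad := by
    have key : ∀ (j : JJ) (i i' : Fin 42), ST j.1.1 j.2.1.1 j.2.2.1 i.1 * ST j.1.1 j.2.1.1 j.2.2.1 i'.1 ≠ 0 →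
        ST j.1.1 j.2.1.1 j.2.2.1 i.1 * ST j.1.1 j.2.1.1 j.2.2.1 i'.1 = SG i.1 i'.1 := by
      intro j i i' h
      have h1 : S j.1.1 (rot i.1 j.2.1.1) ≠ 0 := by
        intro h0; apply h; unfold ST; rw [h0]; ring
      have h2 : S j.1.1 (rot i'.1 j.2.1.1) ≠ 0 := by
        intro h0; apply h; unfold ST; rw [h0]; ring
      rw [← SG_rot i.1 i'.1 j.2.1.1 j.2.1.2,
        ← gval j.1.1 j.1.2 _ _ (rot_lt i.1 j.2.1.1 i.2) (rot_lt i'.1 j.2.1.1 i'.2) h1 h2]
      unfold ST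
      have := sgE_sq j.2.2.1
      linear_combination (S j.1.1 (rot i.1 j.2.1.1) * S j.1.1 (rot i'.1 j.2.1.1)) * this
    intro j j' i i' h h'
    rw [key j i i' h, key j' i i' h']
  cov := by
    intro i
    have hi := i.2
    obtain ⟨j, t, hj, ht, h⟩ := usedS (i.1 / 7) (by omega)
    refine ⟨(⟨j, hj⟩, ⟨(i.1 % 7 + 7 - t) % 7, Nat.mod_lt _ (by norm_num)⟩, 0), ?_⟩
    show ST j ((i.1 % 7 + 7 - t) % 7) 0 i.1 ≠ 0
    have hr : rot i.1 ((i.1 % 7 + 7 - t) % 7) = 7 * (i.1 / 7) + t := by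
      rw [rot_def]; omega
    unfold ST
    rw [hr]
    exact mul_ne_zero (by unfold sgE; decide) h

end Pool.Agent.Q185.RP6
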