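import Pool.Agent.Q185.RP6.Data

/-!
Kernel check of the polytope data.
-/

set_option autoImplicit false

namespace Pool.Agent.Q185.RP6

/-- bounded universal quantifier as a recursive boolean function -/
def allB (n : ℕ) (p : ℕ → Bool) : Bool := Nat.rec true (fun k ih => and (p k) ih) n

theorem allB_spec (p : ℕ → Bool) : ∀ n : ℕ, allB n p = true → ∀ k, k < n → p k = true
  | 0, _, k, hk => absurd hk (Nat.not_lt_zero k)
  | n + 1, h, k, hk => by
      have h' : (p n && allB n p) = true := h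
      rw [Bool.and_eq_true] at h'
      rcases Nat.lt_succ_iff_lt_or_eq.1 hk with h1 | h1
      · exact allB_spec p n h'.2 k h1
      · rw [h1]; exact h'.1

/-- bounded existential quantifier -/
def anyB (n : ℕ) (p : ℕ → Bool) : Bool := Nat.rec false (fun k ih => or (p k) ih) n

theorem anyB_spec (p : ℕ → Bool) : ∀ n : ℕ, anyB n p = true → ∃ k, k < n ∧ p k = true
  | 0, h => by cases h
  | n + 1, h => by
      have h' : (p n || anyB n p) = true := h
      rw [Bool.or_eq_true] at h'
      rcases h' with h1 | h1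
      · exact ⟨n, Nat.lt_succ_self n, h1⟩
      · obtain ⟨k, hk, hp⟩ := anyB_spec p n h1
        exact ⟨k, Nat.lt_succ_of_lt hk, hp⟩

/-- bit of a table -/
def bit (T n : ℕ) : ℕ := Nat.mod (Nat.shiftRight T n) 2

/-- entry of width `w` of a table -/
def ent (T w n : ℕ) : ℕ := Nat.mod (Nat.shiftRight T (Nat.mul w n)) (Nat.pow 2 w)

/-- coordinates of the six representatives -/
def R (o t : ℕ) : ℤ := Int.subNatNat (ent RT 7 (Nat.add (Nat.mul 7 o) t)) 64

/-- coordinates of the 42 vectors -/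
def X (i k : ℕ) : ℤ := R (Nat.div i 7) (Nat.mod (Nat.sub (Nat.add k 7) (Nat.mod i 7)) 7)

/-- sign of the vertex `i` in the base facet `j` -/
def S (j i : ℕ) : ℤ :=
  Int.subNatNat (bit PT (Nat.add (Nat.mul 42 j) i)) (bit MT (Nat.add (Nat.mul 42 j) i))

/-- normals -/
def N (j k : ℕ) : ℤ := Int.subNatNat (ent NT 41 (Nat.add (Nat.mul 8 j) k)) 1099511627776

/-- right hand side -/
def C (j : ℕ) : ℤ := Int.ofNat (ent NT 41 (Nat.add (Nat.mul 8 j) 7))

/-- value of the normal of the facet `j` at the vector `i` -/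
def dot (j i : ℕ) : ℤ :=
  N j 0 * X i 0 + N j 1 * X i 1 + N j 2 * X i 2 + N j 3 * X i 3 + N j 4 * X i 4 + N j 5 * X i 5 + N j 6 * X i 6

/-- neighbour record -/
def nbr (j a : ℕ) : ℕ := ent BT 20 (Nat.add (Nat.mul 7 j) a)

/-- rotation back by `g` -/
def rot (i g : ℕ) : ℕ := Nat.add (Nat.mul 7 (Nat.div i 7)) (Nat.mod (Nat.sub (Nat.add (Nat.mod i 7) 7) g) 7)

/-- sign `1` or `-1` -/
def sgE (e : ℕ) : ℤ := cond (Nat.beq e 0) 1 (-1)

/-- sign of the vertex `i` in the transformed facet -/
def ST (j g e i : ℕ) : ℤ := sgE e * S j (rot i g)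

/-- sign table of the edges -/
def SG (i i' : ℕ) : ℤ :=
  sgE (bit GT (Nat.add (Nat.mul 7 (Nat.add (Nat.mul 6 (Nat.div i 7)) (Nat.div i' 7)))
    (Nat.mod (Nat.sub (Nat.add (Nat.mod i' 7) 7) (Nat.mod i 7)) 7)))

/-- values of the normal -/
def chkV (j : ℕ) : Bool :=
  allB 42 fun i => cond (decide (S j i = 0))
    (and (decide (dot j i < C j)) (decide (- C j < dot j i)))
    (decide (dot j i = S j i * C j))

/-- number of vertices -/
def chkC (j : ℕ) : Bool :=
  Nat.beq (Nat.rec 0 (fun i ih => Nat.add (cond (decide (S j i = 0)) 0 1) ih) 42) 7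

/-- one neighbour, `r` is the record: index of the opposite vertex, sign, shift, index -/
def chkN1 (j r : ℕ) : Bool :=
  and (Nat.blt (Nat.shiftRight r 10) nJ)
  (and (Nat.blt (Nat.mod (Nat.shiftRight r 7) 8) 7)
  (allB 42 fun i => cond (decide (S j i = 0)) true
    (cond (Nat.beq i (Nat.mod r 64))
      (! decide (ST (Nat.shiftRight r 10) (Nat.mod (Nat.shiftRight r 7) 8) (Nat.mod (Nat.shiftRight r 6) 2) i = S j i))
      (decide (ST (Nat.shiftRight r 10) (Nat.mod (Nat.shiftRight r 7) 8) (Nat.mod (Nat.shiftRight r 6) 2) i = S j i)))))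

/-- neighbours -/
def chkN (j : ℕ) : Bool :=
  and (allB 7 fun a => chkN1 j (nbr j a))
  (allB 42 fun i => cond (decide (S j i = 0)) true (anyB 7 fun a => Nat.beq i (Nat.mod (nbr j a) 64)))

/-- edges -/
def chkG (j : ℕ) : Bool :=
  allB 42 fun i => cond (decide (S j i = 0)) true
    (allB 42 fun i' => cond (decide (S j i' = 0)) true (decide (S j i * S j i' = SG i i')))

/-- every vertex is used -/
def chkU : Bool := allB 6 fun o => anyB nJ fun j => anyB 7 fun t => ! decide (S j (Nat.add (Nat.mul 7 o) t) = 0)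

/-- positive right hand sides -/
def chkP (j : ℕ) : Bool := decide (0 < C j)

end Pool.Agent.Q185.RP6
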