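import Pool.Agent.Q185.RP6.Stm

set_option autoImplicit false

namespace Pool.Agent.Q185.RP6

open Finset

theorem phiL : S_PHI := by
  intro n J E _ _ D j a ha
  unfold Fan.L
  rw [map_sum]
  refine Finset.sum_congr rfl fun i _ => ?_
  rw [map_smul, smul_eq_mul]
  by_cases h : D.s j i = 0
  · rw [(ha i).2 h]; simp
  · rw [D.on j i h]
    have h1 := (ha i).1
    rcases D.sgn j i with h0 | h0 | h0
    · exact absurd h0 h
    · rw [h0] at h1 ⊢
      push_cast at h1 ⊢
      rw [mul_one] at h1 ⊢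
      rw [abs_of_nonneg h1]
    · rw [h0] at h1 ⊢
      push_cast at h1 ⊢
      have h2 : a i ≤ 0 := by linarith
      rw [abs_of_nonpos h2]; ring

theorem indL : S_IND := by
  intro n J E _ _ D j a ha h0
  funext i
  show a i = 0
  by_cases h : D.s j i = 0
  · exact ha i h
  obtain ⟨j', h1, h2⟩ := D.nb j i h
  have key : (D.φ j - D.φ j') (D.L a) = a i * ((D.s j i : ℝ) - D.φ j' (D.x i)) := by
    unfold Fan.L
    rw [map_sum, Finset.sum_eq_single i]
    · rw [map_smul, smul_eq_mul, LinearMap.sub_apply, D.on j i h]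
    · intro i' _ hi'
      rw [map_smul, smul_eq_mul]
      by_cases h3 : D.s j i' = 0
      · rw [ha i' h3, zero_mul]
      · have h4 := h2 i' hi' h3
        rw [LinearMap.sub_apply, D.on j i' h3, D.on j' i' (by rw [h4]; exact h3), h4, sub_self, mul_zero]
    · intro h3; exact absurd (Finset.mem_univ i) h3
  rw [h0, map_zero] at key
  have h5 : (D.s j i : ℝ) - D.φ j' (D.x i) ≠ 0 := by
    intro h6
    have h7 : D.φ j' (D.x i) = (D.s j i : ℝ) := by linarith
    by_cases h8 : D.s j' i = 0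
    · have h9 := D.off j' i h8
      rw [h7] at h9
      rcases D.sgn j i with h10 | h10 | h10
      · exact h h10
      · rw [h10] at h9; norm_num at h9
      · rw [h10] at h9; norm_num at h9
    · rw [D.on j' i h8] at h7
      exact h1 (by exact_mod_cast h7)
  rcases mul_eq_zero.1 key.symm with h6 | h6
  · exact h6
  · exact absurd h6 h5

theorem sum_extend {n : ℕ} {E : Type} [NormedAddCommGroup E] [NormedSpace ℝ E] (p : Fin n → Prop)
    [DecidablePred p] (x : Fin n → E) (g : {i : Fin n // p i} → ℝ) :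
    ∑ i, (if h : p i then g ⟨i, h⟩ else 0) • x i = ∑ i : {i : Fin n // p i}, g i • x i.1 := by
  have h1 : ∑ i, (if h : p i then g ⟨i, h⟩ else 0) • x i
      = ∑ i ∈ univ.filter p, (if h : p i then g ⟨i, h⟩ else 0) • x i := by
    rw [Finset.sum_filter]
    refine Finset.sum_congr rfl fun i _ => ?_
    by_cases h : p i
    · rw [if_pos h]
    · rw [if_neg h, dif_neg h, zero_smul]
  rw [h1, Finset.sum_subtype (univ.filter p) (p := p) (by intro i; simp)]
  refine Finset.sum_congr rfl fun i _ => ?_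
  rw [dif_pos i.2]

theorem spanL {n : ℕ} {J E : Type} [NormedAddCommGroup E] [NormedSpace ℝ E] [FiniteDimensional ℝ E]
    (D : Fan n J E) (j : J) (y : E) : ∃ a : Fin n → ℝ, (∀ i, D.s j i = 0 → a i = 0) ∧ D.L a = y := by
  classical
  let S := {i : Fin n // D.s j i ≠ 0}
  have hli : LinearIndependent ℝ (fun i : S => D.x i.1) := by
    rw [Fintype.linearIndependent_iff]
    intro g hg i
    have hL : D.L (fun i => if h : D.s j i ≠ 0 then g ⟨i, h⟩ else 0) = 0 := by
      rw [← hg]
      exact sum_extend (fun i => D.s j i ≠ 0) D.x g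
    have ha : ∀ i, D.s j i = 0 → (fun i => if h : D.s j i ≠ 0 then g ⟨i, h⟩ else 0) i = 0 := by
      intro i hi
      exact dif_neg (by simpa using hi)
    have h1 := indL n J E D j _ ha hL
    have h2 : (if h : D.s j i.1 ≠ 0 then g ⟨i.1, h⟩ else 0) = 0 := congrFun h1 i.1
    rw [dif_pos i.2] at h2
    exact h2
  have hcard : Fintype.card S = Module.finrank ℝ E := by
    rw [← D.card j, Fintype.card_subtype]
  have htop := hli.span_eq_top_of_card_eq_finrank' hcard
  have hy : y ∈ Submodule.span ℝ (Set.range fun i : S => D.x i.1) := by rw [htop]; trivial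
  obtain ⟨g, hg⟩ := (Submodule.mem_span_range_iff_exists_fun ℝ).1 hy
  refine ⟨fun i => if h : D.s j i ≠ 0 then g ⟨i, h⟩ else 0, ?_, ?_⟩
  · intro i hi
    exact dif_neg (by simpa using hi)
  · rw [← hg]
    exact sum_extend (fun i => D.s j i ≠ 0) D.x g

theorem covL : S_COV := by
  intro n J E _ _ _ _ _ D y
  obtain ⟨j, hj⟩ := Finite.exists_max (fun j => D.φ j y)
  obtain ⟨a, ha, hL⟩ := spanL D j y
  refine ⟨j, a, ?_, hL⟩
  intro i
  refine ⟨?_, ha i⟩
  by_contra hneg
  push Not at hneg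
  have h : D.s j i ≠ 0 := by
    intro h; rw [h] at hneg; simp at hneg
  obtain ⟨j', h1, h2⟩ := D.nb j i h
  have key : (D.φ j - D.φ j') (D.L a) = a i * ((D.s j i : ℝ) - D.φ j' (D.x i)) := by
    unfold Fan.L
    rw [map_sum, Finset.sum_eq_single i]
    · rw [map_smul, smul_eq_mul, LinearMap.sub_apply, D.on j i h]
    · intro i' _ hi'
      rw [map_smul, smul_eq_mul]
      by_cases h3 : D.s j i' = 0
      · rw [ha i' h3, zero_mul]
      · have h4 := h2 i' hi' h3
        rw [LinearMap.sub_apply, D.on j i' h3, D.on j' i' (by rw [h4]; exact h3), h4, sub_self, mul_zero]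
    · intro h3; exact absurd (Finset.mem_univ i) h3
  rw [hL, LinearMap.sub_apply] at key
  have h5 := hj j'
  have h6 : 0 ≤ a i * ((D.s j i : ℝ) - D.φ j' (D.x i)) := by rw [← key]; linarith
  -- the value at x i of the neighbour
  have h7 : (D.s j i : ℝ) * D.φ j' (D.x i) < 1 := by
    by_cases h8 : D.s j' i = 0
    · have h9 := D.off j' i h8
      rcases D.sgn j i with h10 | h10 | h10
      · exact absurd h10 h
      · rw [h10]; push_cast; rw [one_mul]; exact lt_of_le_of_lt (le_abs_self _) h9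
      · rw [h10]; push_cast; rw [neg_one_mul]; exact lt_of_le_of_lt (neg_le_abs _) h9
    · rw [D.on j' i h8]
      rcases D.sgn j i with h10 | h10 | h10
      · exact absurd h10 h
      · rcases D.sgn j' i with h11 | h11 | h11
        · exact absurd h11 h8
        · exact absurd (by rw [h11, h10]) h1
        · rw [h10, h11]; norm_num
      · rcases D.sgn j' i with h11 | h11 | h11
        · exact absurd h11 h8
        · rw [h10, h11]; norm_num
        · exact absurd (by rw [h11, h10]) h1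
  rcases D.sgn j i with h10 | h10 | h10
  · exact h h10
  · rw [h10] at hneg h6 h7
    push_cast at hneg h6 h7
    have : a i < 0 := by linarith
    nlinarith
  · rw [h10] at hneg h6 h7
    push_cast at hneg h6 h7
    have : 0 < a i := by linarith
    nlinarith

theorem phi_le {n : ℕ} {J E : Type} [NormedAddCommGroup E] [NormedSpace ℝ E] (D : Fan n J E)
    (j : J) (i : Fin n) : |D.φ j (D.x i)| ≤ 1 := by
  by_cases h : D.s j i = 0
  · exact (D.off j i h).le
  · rw [D.on j i h]
    rcases D.sgn j i with h0 | h0 | h0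
    · exact absurd h0 h
    · rw [h0]; norm_num
    · rw [h0]; norm_num

theorem phi_L_le {n : ℕ} {J E : Type} [NormedAddCommGroup E] [NormedSpace ℝ E] (D : Fan n J E)
    (j : J) (b : Fin n → ℝ) : D.φ j (D.L b) ≤ ∑ i, |b i| := by
  unfold Fan.L
  rw [map_sum]
  refine Finset.sum_le_sum fun i _ => ?_
  rw [map_smul, smul_eq_mul]
  calc b i * D.φ j (D.x i) ≤ |b i * D.φ j (D.x i)| := le_abs_self _
    _ = |b i| * |D.φ j (D.x i)| := abs_mul _ _
    _ ≤ |b i| * 1 := mul_le_mul_of_nonneg_left (phi_le D j i) (abs_nonneg _)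
    _ = |b i| := mul_one _

theorem phi_L_eq {n : ℕ} {J E : Type} [NormedAddCommGroup E] [NormedSpace ℝ E] (D : Fan n J E)
    (j : J) (b : Fin n → ℝ) (h : ∑ i, |b i| ≤ D.φ j (D.L b)) : D.Sup j b := by
  have hle : ∀ i ∈ (univ : Finset (Fin n)), b i * D.φ j (D.x i) ≤ |b i| := by
    intro i _
    calc b i * D.φ j (D.x i) ≤ |b i * D.φ j (D.x i)| := le_abs_self _
      _ = |b i| * |D.φ j (D.x i)| := abs_mul _ _
      _ ≤ |b i| * 1 := mul_le_mul_of_nonneg_left (phi_le D j i) (abs_nonneg _)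
      _ = |b i| := mul_one _
  have hL : D.φ j (D.L b) = ∑ i, b i * D.φ j (D.x i) := by
    unfold Fan.L; rw [map_sum]; simp only [map_smul, smul_eq_mul]
  have heq : ∑ i, b i * D.φ j (D.x i) = ∑ i, |b i| :=
    le_antisymm (Finset.sum_le_sum hle) (by rw [← hL]; exact h)
  have hall := (Finset.sum_eq_sum_iff_of_le hle).1 heq
  intro i
  have hi := hall i (Finset.mem_univ i)
  have hz : D.s j i = 0 → b i = 0 := by
    intro h0
    have h1 := D.off j i h0
    by_contra hb
    have h2 : b i * D.φ j (D.x i) < |b i| := by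
      calc b i * D.φ j (D.x i) ≤ |b i * D.φ j (D.x i)| := le_abs_self _
        _ = |b i| * |D.φ j (D.x i)| := abs_mul _ _
        _ < |b i| * 1 := mul_lt_mul_of_pos_left h1 (abs_pos.2 hb)
        _ = |b i| := mul_one _
    linarith
  refine ⟨?_, hz⟩
  by_cases h0 : D.s j i = 0
  · rw [h0]; simp
  · rw [D.on j i h0] at hi
    rw [hi]; exact abs_nonneg _

theorem injL : S_INJ := by
  intro n J E _ _ D a b c ha hb hc hab
  obtain ⟨ha1, j, hj⟩ := ha
  obtain ⟨hb1, k, hk⟩ := hb
  have h1 := phiL n J E D j a hj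
  have h2 := phiL n J E D k b hk
  have h3 := phi_L_le D j b
  have h4 := phi_L_le D k a
  rw [ha1] at h1 h4
  rw [hb1] at h2 h3
  rw [hab, map_smul, smul_eq_mul] at h1
  rw [hab, map_smul, smul_eq_mul, h2, mul_one] at h4
  have hc1 : 1 ≤ c := by nlinarith
  have hc2 : c = 1 := le_antisymm h4 hc1
  rw [hc2, one_mul] at h1
  rw [hc2, one_smul] at hab
  have h5 : D.Sup j b := phi_L_eq D j b (by rw [hb1, h1])
  have h6 := indL n J E D j (a - b) (by
    intro i hi
    rw [Pi.sub_apply, (hj i).2 hi, (h5 i).2 hi, sub_zero]) (by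
    have : D.L (a - b) = D.L a - D.L b := by
      unfold Fan.L
      rw [← Finset.sum_sub_distrib]
      refine Finset.sum_congr rfl fun i _ => ?_
      rw [Pi.sub_apply, sub_smul]
    rw [this, hab, sub_self])
  exact sub_eq_zero.1 h6

theorem sup_neg {n : ℕ} {J E : Type} [NormedAddCommGroup E] [NormedSpace ℝ E] (D : Fan n J E)
    (b : Fin n → ℝ) (hb : b ∈ D.Kt) : -b ∈ D.Kt := by
  obtain ⟨hb1, k, hk⟩ := hb
  obtain ⟨k', hk'⟩ := D.neg k
  refine ⟨by simpa using hb1, k', ?_⟩
  intro i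
  rw [hk' i]
  refine ⟨?_, ?_⟩
  · rw [Pi.neg_apply]; push_cast; rw [neg_mul_neg]; exact (hk i).1
  · intro h
    rw [Pi.neg_apply, (hk i).2 (neg_eq_zero.1 h), neg_zero]

theorem sup_sign {n : ℕ} {J E : Type} [NormedAddCommGroup E] [NormedSpace ℝ E] (D : Fan n J E)
    (j : J) (a : Fin n → ℝ) (ha : D.Sup j a) (i : Fin n) (h : a i ≠ 0) :
    D.s j i ≠ 0 ∧ a i = |a i| * (D.s j i : ℝ) := by
  have h1 : D.s j i ≠ 0 := fun h0 => h ((ha i).2 h0)
  refine ⟨h1, ?_⟩
  have h2 := (ha i).1
  rcases D.sgn j i with h0 | h0 | h0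
  · exact absurd h0 h1
  · rw [h0] at h2 ⊢; push_cast at h2 ⊢
    rw [mul_one] at h2
    rw [abs_of_nonneg h2, mul_one]
  · rw [h0] at h2 ⊢; push_cast at h2 ⊢
    have : a i ≤ 0 := by linarith
    rw [abs_of_nonpos this]; ring

theorem fib_aux {n : ℕ} {J E : Type} [NormedAddCommGroup E] [NormedSpace ℝ E] (D : Fan n J E)
    (a b : Fin n → ℝ) (ha : a ∈ D.Kt) (hb : b ∈ D.Kt) (hab : ∀ i, |a i| = |b i|) (i0 : Fin n)
    (h0 : a i0 ≠ 0) (h0b : a i0 = b i0) : a = b := by
  obtain ⟨ha1, j, hj⟩ := ha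
  obtain ⟨hb1, k, hk⟩ := hb
  funext i
  by_cases h : a i = 0
  · have h1 := hab i
    rw [h, abs_zero] at h1
    rw [h, abs_eq_zero.1 h1.symm]
  have hb' : b i ≠ 0 := by
    intro hbi
    have h1 := hab i
    rw [hbi, abs_zero] at h1
    exact h (abs_eq_zero.1 h1)
  obtain ⟨p1, q1⟩ := sup_sign D j a hj i h
  obtain ⟨p2, q2⟩ := sup_sign D k b hk i hb'
  obtain ⟨p3, q3⟩ := sup_sign D j a hj i0 h0
  obtain ⟨p4, q4⟩ := sup_sign D k b hk i0 (by rw [← h0b]; exact h0)
  have e0 : D.s j i0 = D.s k i0 := by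
    have h5 : |a i0| * (D.s j i0 : ℝ) = |a i0| * (D.s k i0 : ℝ) := by
      rw [← q3, hab i0, ← q4, h0b]
    have h6 := mul_left_cancel₀ (abs_ne_zero.2 h0) h5
    exact_mod_cast h6
  have hbad := D.nobad j k i i0 (mul_ne_zero p1 p3) (mul_ne_zero p2 p4)
  rw [e0] at hbad
  have e1 : D.s j i = D.s k i := mul_right_cancel₀ p4 hbad
  rw [q1, q2, hab i, e1]

theorem fibL : S_FIB := by
  intro n J E _ _ D a b ha hb hab
  have hne : ∃ i0, a i0 ≠ 0 := by
    by_contra hcon
    push Not at hcon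
    have h1 := ha.1
    simp [hcon] at h1
  obtain ⟨i0, h0⟩ := hne
  rcases abs_eq_abs.1 (hab i0) with h1 | h1
  · left; exact fib_aux D a b ha hb hab i0 h0 h1
  · right
    exact fib_aux D a (-b) ha (sup_neg D b hb) (by intro i; rw [Pi.neg_apply, abs_neg]; exact hab i) i0 h0
      (by rw [Pi.neg_apply]; exact h1)

end Pool.Agent.Q185.RP6
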