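import Pool.Agent.Q185.RP6.Stm

set_option autoImplicit false

namespace Pool.Agent.Q185.RP6

open Finset

/-- the standard basis vector -/
noncomputable def ev (n : ℕ) (i : Fin n) : EuclideanSpace ℝ (Fin n) := EuclideanSpace.single i (1 : ℝ)

theorem ev_apply (n : ℕ) (i k : Fin n) : ev n i k = if k = i then 1 else 0 := by
  unfold ev
  rw [EuclideanSpace.single_apply]

theorem ev_inj (n : ℕ) : Function.Injective (ev n) := by
  intro i k h
  have h1 : ev n i k = ev n k k := by rw [h]
  rw [ev_apply, ev_apply] at h1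
  simp only [if_true] at h1
  by_contra hne
  rw [if_neg (fun h2 => hne h2.symm)] at h1
  exact zero_ne_one h1

theorem sum_ev (n : ℕ) (t : EuclideanSpace ℝ (Fin n)) (A : Finset (Fin n)) (h : ∀ i, i ∉ A → t i = 0) :
    ∑ i ∈ A, t i • ev n i = t := by
  ext k
  have h1 : (∑ i ∈ A, t i • ev n i) k = ∑ i ∈ A, t i * (if k = i then 1 else 0) := by
    rw [show (∑ i ∈ A, t i • ev n i) k = ∑ i ∈ A, (t i • ev n i) k by simp]
    refine Finset.sum_congr rfl fun i _ => ?_
    rw [PiLp.smul_apply, smul_eq_mul, ev_apply]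
  rw [h1]
  by_cases hk : k ∈ A
  · rw [Finset.sum_eq_single k]
    · simp
    · intro i _ hi
      rw [if_neg (fun h2 => hi h2.symm), mul_zero]
    · intro h2; exact absurd hk h2
  · rw [h k hk]
    refine Finset.sum_eq_zero fun i hi => ?_
    rw [if_neg, mul_zero]
    intro h2; exact hk (h2 ▸ hi)

theorem mem_hull (n : ℕ) (A : Finset (Fin n)) (t : EuclideanSpace ℝ (Fin n)) :
    t ∈ convexHull ℝ (ev n '' (A : Set (Fin n))) ↔ (∀ i, 0 ≤ t i) ∧ ∑ i, t i = 1 ∧ ∀ i, i ∉ A → t i = 0 := by
  constructor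
  · intro ht
    have hconv : Convex ℝ {t : EuclideanSpace ℝ (Fin n) | (∀ i, 0 ≤ t i) ∧ ∑ i, t i = 1 ∧ ∀ i, i ∉ A → t i = 0} := by
      rintro x ⟨hx0, hx1, hx2⟩ y ⟨hy0, hy1, hy2⟩ a b ha hb hab
      refine ⟨?_, ?_, ?_⟩
      · intro i
        show 0 ≤ (a • x + b • y) i
        rw [PiLp.add_apply, PiLp.smul_apply, PiLp.smul_apply, smul_eq_mul, smul_eq_mul]
        exact add_nonneg (mul_nonneg ha (hx0 i)) (mul_nonneg hb (hy0 i))
      · have : ∑ i, (a • x + b • y) i = a * ∑ i, x i + b * ∑ i, y i := by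
          rw [Finset.mul_sum, Finset.mul_sum, ← Finset.sum_add_distrib]
          refine Finset.sum_congr rfl fun i _ => ?_
          rw [PiLp.add_apply, PiLp.smul_apply, PiLp.smul_apply, smul_eq_mul, smul_eq_mul]
        rw [this, hx1, hy1]; linarith
      · intro i hi
        show (a • x + b • y) i = 0
        rw [PiLp.add_apply, PiLp.smul_apply, PiLp.smul_apply, hx2 i hi, hy2 i hi]; simp
    refine convexHull_min ?_ hconv ht
    rintro _ ⟨i, hi, rfl⟩
    refine ⟨?_, ?_, ?_⟩
    · intro k; rw [ev_apply]; split_ifs <;> norm_num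
    · simp only [ev_apply]; rw [Finset.sum_ite_eq']; simp
    · intro k hk
      rw [ev_apply, if_neg]
      intro h; exact hk (h ▸ hi)
  · rintro ⟨h0, h1, h2⟩
    rw [← sum_ev n t A h2]
    have hs : ∑ i ∈ A, t i = 1 := by
      rw [← h1]
      exact Finset.sum_subset (Finset.subset_univ A) fun i _ hi => h2 i hi
    exact (convex_convexHull ℝ _).sum_mem (fun i _ => h0 i) hs
      (fun i hi => subset_convexHull ℝ _ ⟨i, hi, rfl⟩)

theorem ev_affine (n : ℕ) : AffineIndependent ℝ (ev n) := by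
  have h : LinearIndependent ℝ (ev n) := by
    rw [Fintype.linearIndependent_iff]
    intro g hg i
    have h1 := sum_ev n (WithLp.toLp 2 g) univ (by intro i hi; exact absurd (Finset.mem_univ i) hi)
    have h2 : (WithLp.toLp 2 g : EuclideanSpace ℝ (Fin n)) = 0 := by
      rw [← h1]; exact hg
    have h3 := congrFun (congrArg WithLp.ofLp h2) i
    exact h3
  exact h.affineIndependent

theorem cpxL : S_CPX := by
  intro n J E _ _ D
  classical
  let FS : Set (Finset (EuclideanSpace ℝ (Fin n))) :=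
    {F | ∃ A : Finset (Fin n), (∃ j, ∀ i ∈ A, D.s j i ≠ 0) ∧ F = A.image (ev n)}
  have hco : ∀ A : Finset (Fin n), ((A.image (ev n) : Finset (EuclideanSpace ℝ (Fin n))) : Set (EuclideanSpace ℝ (Fin n))) = ev n '' (A : Set (Fin n)) := by
    intro A; rw [Finset.coe_image]
  have hind : ∀ s ∈ FS, AffineIndependent ℝ ((↑) : s → EuclideanSpace ℝ (Fin n)) := by
    rintro s ⟨A, _, rfl⟩
    have h1 := (ev_affine n).range
    refine h1.mono ?_
    rw [hco]
    exact Set.image_subset_range _ _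
  have hlow : IsLowerSet FS := by
    rintro s t hts ⟨A, ⟨j, hj⟩, rfl⟩
    have hts' : t ⊆ A.image (ev n) := hts
    refine ⟨A.filter fun i => ev n i ∈ t, ⟨j, fun i hi => hj i (Finset.mem_filter.1 hi).1⟩, ?_⟩
    ext v
    rw [Finset.mem_image]
    constructor
    · intro hv
      obtain ⟨i, hi, rfl⟩ := Finset.mem_image.1 (hts' hv)
      exact ⟨i, Finset.mem_filter.2 ⟨hi, hv⟩, rfl⟩
    · rintro ⟨i, hi, rfl⟩
      exact (Finset.mem_filter.1 hi).2
  have hint : ∀ᵉ (s ∈ FS) (t ∈ FS), convexHull ℝ (s : Set (EuclideanSpace ℝ (Fin n))) ∩ convexHull ℝ (t : Set (EuclideanSpace ℝ (Fin n)))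
      ⊆ convexHull ℝ ((s : Set (EuclideanSpace ℝ (Fin n))) ∩ (t : Set (EuclideanSpace ℝ (Fin n)))) := by
    rintro s ⟨A, _, rfl⟩ t ⟨B, _, rfl⟩ p ⟨hp1, hp2⟩
    rw [hco] at hp1 hp2
    rw [mem_hull] at hp1 hp2
    have h3 : p ∈ convexHull ℝ (ev n '' ((A ∩ B : Finset (Fin n)) : Set (Fin n))) := by
      rw [mem_hull]
      refine ⟨hp1.1, hp1.2.1, ?_⟩
      intro i hi
      rw [Finset.mem_inter, not_and_or] at hi
      rcases hi with hi | hi
      · exact hp1.2.2 i hi
      · exact hp2.2.2 i hi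
    refine convexHull_mono ?_ h3
    rw [hco, hco]
    rintro _ ⟨i, hi, rfl⟩
    have hi' := Finset.mem_inter.1 (Finset.mem_coe.1 hi)
    exact ⟨⟨i, hi'.1, rfl⟩, ⟨i, hi'.2, rfl⟩⟩
  let K : Geometry.SimplicialComplex ℝ (EuclideanSpace ℝ (Fin n)) :=
    Geometry.SimplicialComplex.ofErase FS hind hlow hint
  have hfaces : K.faces = FS \ {∅} := rfl
  refine ⟨K, ?_, ?_, ?_⟩
  · ext t
    rw [Geometry.SimplicialComplex.mem_space_iff]
    constructor
    · rintro ⟨s, hs, ht⟩
      rw [hfaces] at hs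
      obtain ⟨⟨A, ⟨j, hj⟩, rfl⟩, _⟩ := hs
      rw [hco, mem_hull] at ht
      refine ⟨ht.1, ht.2.1, j, ?_⟩
      intro i hi
      exact ht.2.2 i fun h => hj i h hi
    · rintro ⟨h0, h1, j, hj⟩
      refine ⟨(univ.filter fun i => D.s j i ≠ 0).image (ev n), ?_, ?_⟩
      · rw [hfaces]
        refine ⟨⟨_, ⟨j, fun i hi => (Finset.mem_filter.1 hi).2⟩, rfl⟩, ?_⟩
        intro hempty
        have hem : (univ.filter fun i => D.s j i ≠ 0).image (ev n) = ∅ := hempty
        rw [Finset.image_eq_empty] at hem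
        have hall : ∀ i, t i = 0 := by
          intro i
          refine hj i ?_
          by_contra hne
          have : i ∈ univ.filter fun i => D.s j i ≠ 0 := Finset.mem_filter.2 ⟨Finset.mem_univ i, hne⟩
          rw [hem] at this
          exact absurd this (Finset.notMem_empty i)
        simp [hall] at h1
      · rw [hco, mem_hull]
        refine ⟨h0, h1, ?_⟩
        intro i hi
        refine hj i ?_
        by_contra hne
        exact hi (Finset.mem_filter.2 ⟨Finset.mem_univ i, hne⟩)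
  · rw [hfaces]
    refine Set.Finite.subset ?_ Set.diff_subset
    have : FS ⊆ Set.range fun A : Finset (Fin n) => A.image (ev n) := by
      rintro F ⟨A, _, rfl⟩
      exact ⟨A, rfl⟩
    exact (Set.finite_range _).subset this
  · have hv : K.vertices = Set.range (ev n) := by
      ext v
      rw [Geometry.SimplicialComplex.mem_vertices]
      constructor
      · intro hv
        rw [hfaces] at hv
        obtain ⟨⟨A, _, hA⟩, _⟩ := hv
        have : v ∈ A.image (ev n) := by rw [← hA]; exact Finset.mem_singleton_self v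
        obtain ⟨i, _, rfl⟩ := Finset.mem_image.1 this
        exact ⟨i, rfl⟩
      · rintro ⟨i, rfl⟩
        rw [hfaces]
        obtain ⟨j, hj⟩ := D.cov i
        refine ⟨⟨{i}, ⟨j, ?_⟩, ?_⟩, ?_⟩
        · intro k hk
          rw [Finset.mem_singleton.1 hk]; exact hj
        · rw [Finset.image_singleton]
        · intro h
          exact absurd h (Finset.singleton_ne_empty _)
    rw [hv, ← Set.image_univ, Set.ncard_image_of_injective _ (ev_inj n), Set.ncard_univ, Nat.card_eq_fintype_card,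
      Fintype.card_fin]

end Pool.Agent.Q185.RP6
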