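import Mathlib

/-!
Project RP6 (row MP_b4345b_gt): a triangulation of real projective 6-space with 42 vertices,
the antipodal quotient of the boundary of a centrally symmetric simplicial 7-polytope with 84 vertices.
This file: the abstract data and the statements of the lemmas.
-/

set_option autoImplicit false

namespace Pool.Agent.Q185.RP6

open Finset

/-- The facets of a centrally symmetric simplicial polytope with vertices `± x i` (`i : Fin n`) in `E`.
A facet is indexed by `j : J`; its vertices are the points `s j i • x i` with `s j i ≠ 0` (signs `± 1`),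
and `φ j` is the linear functional which is `1` on the vertices of the facet `j`
and `< 1` on all the other vertices. -/
structure Fan (n : ℕ) (J : Type) (E : Type) [NormedAddCommGroup E] [NormedSpace ℝ E] where
  x : Fin n → E
  s : J → Fin n → ℤ
  φ : J → E →ₗ[ℝ] ℝ
  sgn : ∀ j i, s j i = 0 ∨ s j i = 1 ∨ s j i = -1
  on : ∀ j i, s j i ≠ 0 → φ j (x i) = s j i
  off : ∀ j i, s j i = 0 → |φ j (x i)| < 1
  neg : ∀ j, ∃ j', ∀ i, s j' i = - s j i
  nb : ∀ j i, s j i ≠ 0 → ∃ j', s j' i ≠ s j i ∧ ∀ i', i' ≠ i → s j i' ≠ 0 → s j' i' = s j i'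
  card : ∀ j, (univ.filter fun i => s j i ≠ 0).card = Module.finrank ℝ E
  nobad : ∀ j j' i i', s j i * s j i' ≠ 0 → s j' i * s j' i' ≠ 0 → s j i * s j i' = s j' i * s j' i'
  cov : ∀ i, ∃ j, s j i ≠ 0

variable {n : ℕ} {J : Type} {E : Type} [NormedAddCommGroup E] [NormedSpace ℝ E]

/-- `a` is a vector of coefficients supported on the facet `j`, with the right signs. -/
def Fan.Sup (D : Fan n J E) (j : J) (a : Fin n → ℝ) : Prop :=
  ∀ i, 0 ≤ a i * (D.s j i : ℝ) ∧ (D.s j i = 0 → a i = 0)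

/-- The linear combination with coefficients `a`. -/
def Fan.L (D : Fan n J E) (a : Fin n → ℝ) : E := ∑ i, a i • D.x i

/-- The double cover: coefficients with `∑ |a i| = 1` supported on some facet. -/
def Fan.Kt (D : Fan n J E) : Set (Fin n → ℝ) := {a | ∑ i, |a i| = 1 ∧ ∃ j, D.Sup j a}

/-- The realization of the quotient complex. -/
def Fan.Kq (D : Fan n J E) : Set (EuclideanSpace ℝ (Fin n)) :=
  {t | (∀ i, 0 ≤ t i) ∧ ∑ i, t i = 1 ∧ ∃ j, ∀ i, D.s j i = 0 → t i = 0}

/-- The antipodal relation on the sphere. -/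
def anti (E : Type) [NormedAddCommGroup E] [NormedSpace ℝ E] (x y : Metric.sphere (0 : E) 1) : Prop :=
  (x : E) = (y : E) ∨ (x : E) = -(y : E)

/-- On a supported vector the functional of the facet is the sum of the absolute values. -/
def S_PHI : Prop := ∀ (n : ℕ) (J E : Type) [NormedAddCommGroup E] [NormedSpace ℝ E] (D : Fan n J E)
  (j : J) (a : Fin n → ℝ), D.Sup j a → D.φ j (D.L a) = ∑ i, |a i|

/-- Independence: from the neighbours. -/
def S_IND : Prop := ∀ (n : ℕ) (J E : Type) [NormedAddCommGroup E] [NormedSpace ℝ E] (D : Fan n J E)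
  (j : J) (a : Fin n → ℝ), (∀ i, D.s j i = 0 → a i = 0) → D.L a = 0 → a = 0

/-- Covering: take the facet `j` at which `φ j y` is maximal. -/
def S_COV : Prop := ∀ (n : ℕ) (J E : Type) [NormedAddCommGroup E] [NormedSpace ℝ E] [FiniteDimensional ℝ E]
  [Finite J] [Nonempty J] (D : Fan n J E) (y : E), ∃ j a, D.Sup j a ∧ D.L a = y

/-- Injectivity on rays. -/
def S_INJ : Prop := ∀ (n : ℕ) (J E : Type) [NormedAddCommGroup E] [NormedSpace ℝ E] (D : Fan n J E)
  (a b : Fin n → ℝ) (c : ℝ), a ∈ D.Kt → b ∈ D.Kt → 0 < c → D.L a = c • D.L b → a = b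

/-- Fibres of the absolute value. -/
def S_FIB : Prop := ∀ (n : ℕ) (J E : Type) [NormedAddCommGroup E] [NormedSpace ℝ E] (D : Fan n J E)
  (a b : Fin n → ℝ), a ∈ D.Kt → b ∈ D.Kt → (∀ i, |a i| = |b i|) → a = b ∨ a = -b

/-- The double cover is homeomorphic to the sphere by normalizing the linear combination. -/
def S_HOM : Prop := ∀ (n : ℕ) (J E : Type) [NormedAddCommGroup E] [NormedSpace ℝ E] [FiniteDimensional ℝ E]
  [Nontrivial E] [Finite J] [Nonempty J] (D : Fan n J E),
  ∃ h : D.Kt ≃ₜ Metric.sphere (0 : E) 1, ∀ a : D.Kt, ((h a : Metric.sphere (0 : E) 1) : E) = (‖D.L a.1‖)⁻¹ • D.L a.1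

/-- The quotient. -/
def S_QUO : Prop := ∀ (n : ℕ) (J E : Type) [NormedAddCommGroup E] [NormedSpace ℝ E] [FiniteDimensional ℝ E]
  [Nontrivial E] [Finite J] [Nonempty J] (D : Fan n J E), Nonempty (D.Kq ≃ₜ Quot (anti E))

/-- The geometric simplicial complex with vertices the standard basis vectors. -/
def S_CPX : Prop := ∀ (n : ℕ) (J E : Type) [NormedAddCommGroup E] [NormedSpace ℝ E] (D : Fan n J E),
  ∃ K : Geometry.SimplicialComplex ℝ (EuclideanSpace ℝ (Fin n)),
    K.space = D.Kq ∧ K.faces.Finite ∧ K.vertices.ncard = n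

end Pool.Agent.Q185.RP6
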