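import Pool.Agent.Q185.RP6.Core

set_option autoImplicit false

namespace Pool.Agent.Q185.RP6

open Finset

variable {n : ℕ} {J : Type} {E : Type} [NormedAddCommGroup E] [NormedSpace ℝ E]

theorem L_cont (D : Fan n J E) : Continuous D.L := by
  unfold Fan.L
  exact continuous_finset_sum _ fun i _ => (continuous_apply i).smul continuous_const

theorem L_smul (D : Fan n J E) (c : ℝ) (a : Fin n → ℝ) : D.L (c • a) = c • D.L a := by
  unfold Fan.L
  rw [Finset.smul_sum]
  refine Finset.sum_congr rfl fun i _ => ?_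
  rw [Pi.smul_apply, smul_eq_mul, mul_smul]

theorem L_neg (D : Fan n J E) (a : Fin n → ℝ) : D.L (-a) = - D.L a := by
  unfold Fan.L
  rw [← Finset.sum_neg_distrib]
  refine Finset.sum_congr rfl fun i _ => ?_
  rw [Pi.neg_apply, neg_smul]

theorem L_ne (D : Fan n J E) (a : Fin n → ℝ) (ha : a ∈ D.Kt) : D.L a ≠ 0 := by
  obtain ⟨h1, j, hj⟩ := ha
  intro h
  have h2 := phiL n J E D j a hj
  rw [h, map_zero, h1] at h2
  exact one_ne_zero h2.symm

theorem Kt_compact [Finite J] (D : Fan n J E) : IsCompact D.Kt := by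
  have hc : IsClosed D.Kt := by
    have h1 : D.Kt = {a | ∑ i, |a i| = 1} ∩ ⋃ j, {a | D.Sup j a} := by
      ext a
      simp [Fan.Kt]
    rw [h1]
    refine IsClosed.inter ?_ ?_
    · exact isClosed_eq (continuous_finset_sum _ fun i _ => (continuous_apply i).abs) continuous_const
    · refine isClosed_iUnion_of_finite fun j => ?_
      have h2 : {a | D.Sup j a} = ⋂ i, ({a : Fin n → ℝ | 0 ≤ a i * (D.s j i : ℝ)} ∩ {a | D.s j i = 0 → a i = 0}) := by
        ext a
        simp [Fan.Sup, Set.mem_iInter]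
      rw [h2]
      refine isClosed_iInter fun i => IsClosed.inter ?_ ?_
      · exact isClosed_le continuous_const ((continuous_apply i).mul continuous_const)
      · by_cases h : D.s j i = 0
        · have : {a : Fin n → ℝ | D.s j i = 0 → a i = 0} = {a | a i = 0} := by
            ext a; simp [h]
          rw [this]
          exact isClosed_eq (continuous_apply i) continuous_const
        · have : {a : Fin n → ℝ | D.s j i = 0 → a i = 0} = Set.univ := by
            ext a; simp [h]
          rw [this]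
          exact isClosed_univ
  refine Metric.isCompact_of_isClosed_isBounded hc ?_
  refine (Metric.isBounded_closedBall (x := (0 : Fin n → ℝ)) (r := 1)).subset ?_
  intro a ha
  rw [mem_closedBall_zero_iff, pi_norm_le_iff_of_nonneg zero_le_one]
  intro i
  rw [Real.norm_eq_abs, ← ha.1]
  exact Finset.single_le_sum (f := fun i => |a i|) (fun i _ => abs_nonneg _) (Finset.mem_univ i)

theorem homL : S_HOM := by
  intro n J E _ _ _ _ _ _ D
  haveI : CompactSpace D.Kt := isCompact_iff_compactSpace.1 (Kt_compact D)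
  have hn : ∀ a : D.Kt, ‖D.L a.1‖ ≠ 0 := fun a => norm_ne_zero_iff.2 (L_ne D a.1 a.2)
  have hnp : ∀ a : D.Kt, 0 < ‖D.L a.1‖ := fun a => norm_pos_iff.2 (L_ne D a.1 a.2)
  let f : D.Kt → Metric.sphere (0 : E) 1 := fun a => ⟨(‖D.L a.1‖)⁻¹ • D.L a.1, by
    rw [mem_sphere_zero_iff_norm, norm_smul, norm_inv, norm_norm, inv_mul_cancel₀ (hn a)]⟩
  have hf : Continuous f := by
    refine Continuous.subtype_mk ?_ _
    have h1 : Continuous fun a : D.Kt => D.L a.1 := (L_cont D).comp continuous_subtype_val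
    exact (h1.norm.inv₀ hn).smul h1
  have hinj : Function.Injective f := by
    intro a b hab
    have h1 : (‖D.L a.1‖)⁻¹ • D.L a.1 = (‖D.L b.1‖)⁻¹ • D.L b.1 := congrArg Subtype.val hab
    have h2 : D.L a.1 = (‖D.L a.1‖ * (‖D.L b.1‖)⁻¹) • D.L b.1 := by
      rw [mul_smul, ← h1, smul_smul, mul_inv_cancel₀ (hn a), one_smul]
    exact Subtype.ext (injL n J E D a.1 b.1 _ a.2 b.2 (mul_pos (hnp a) (inv_pos.2 (hnp b))) h2)
  have hsurj : Function.Surjective f := by
    intro y
    obtain ⟨j, a, ha, hL⟩ := covL n J E D y.1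
    have hy : ‖(y : E)‖ = 1 := by simpa using y.2
    have hr0 : 0 ≤ ∑ i, |a i| := Finset.sum_nonneg fun i _ => abs_nonneg _
    have hr1 : ∑ i, |a i| ≠ 0 := by
      intro h0
      have h1 := (Finset.sum_eq_zero_iff_of_nonneg (fun i _ => abs_nonneg (a i))).1 h0
      have h2 : a = 0 := by
        funext i
        exact abs_eq_zero.1 (h1 i (Finset.mem_univ i))
      have h3 : D.L a = 0 := by
        rw [h2]; unfold Fan.L; simp
      rw [← hL, h3, norm_zero] at hy
      exact zero_ne_one hy
    have hr : 0 < ∑ i, |a i| := lt_of_le_of_ne hr0 (Ne.symm hr1)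
    set r := ∑ i, |a i| with hrdef
    have hmem : (r⁻¹ • a) ∈ D.Kt := by
      refine ⟨?_, j, ?_⟩
      · have : ∑ i, |(r⁻¹ • a) i| = r⁻¹ * ∑ i, |a i| := by
          rw [Finset.mul_sum]
          refine Finset.sum_congr rfl fun i _ => ?_
          rw [Pi.smul_apply, smul_eq_mul, abs_mul, abs_of_pos (inv_pos.2 hr)]
        rw [this, ← hrdef, inv_mul_cancel₀ hr1]
      · intro i
        refine ⟨?_, ?_⟩
        · rw [Pi.smul_apply, smul_eq_mul, mul_assoc]
          exact mul_nonneg (inv_pos.2 hr).le (ha i).1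
        · intro h
          rw [Pi.smul_apply, (ha i).2 h, smul_zero]
    refine ⟨⟨r⁻¹ • a, hmem⟩, Subtype.ext ?_⟩
    show (‖D.L (r⁻¹ • a)‖)⁻¹ • D.L (r⁻¹ • a) = (y : E)
    rw [L_smul, hL, norm_smul, hy, mul_one, norm_inv, Real.norm_eq_abs, abs_of_pos hr, inv_inv, smul_smul,
      mul_inv_cancel₀ hr1, one_smul]
  refine ⟨Continuous.homeoOfEquivCompactToT2 (f := Equiv.ofBijective f ⟨hinj, hsurj⟩) hf, ?_⟩
  intro a
  rfl

theorem quoL : S_QUO := by
  intro n J E _ _ _ _ _ _ D
  classical
  obtain ⟨h, hh⟩ := homL n J E D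
  haveI : ProperSpace E := FiniteDimensional.proper_real E
  -- the map to the quotient complex
  have hA : ∀ a : D.Kt, (WithLp.toLp 2 (fun i => |a.1 i|) : EuclideanSpace ℝ (Fin n)) ∈ D.Kq := by
    intro a
    obtain ⟨h1, j, hj⟩ := a.2
    refine ⟨fun i => abs_nonneg _, h1, j, ?_⟩
    intro i hi
    show |a.1 i| = 0
    rw [(hj i).2 hi, abs_zero]
  let A : D.Kt → D.Kq := fun a => ⟨WithLp.toLp 2 (fun i => |a.1 i|), hA a⟩
  have hAc : Continuous A := by
    refine Continuous.subtype_mk ?_ _
    refine (PiLp.continuous_toLp 2 _).comp ?_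
    exact continuous_pi fun i => ((continuous_apply i).comp continuous_subtype_val).abs
  have hAs : Function.Surjective A := by
    intro t
    obtain ⟨h0, h1, j, hj⟩ := t.2
    have habs : ∀ i, |t.1 i * (D.s j i : ℝ)| = t.1 i := by
      intro i
      rw [abs_mul, abs_of_nonneg (h0 i)]
      rcases D.sgn j i with h2 | h2 | h2
      · rw [h2, hj i h2]; simp
      · rw [h2]; simp
      · rw [h2]; simp
    have hm : (fun i => t.1 i * (D.s j i : ℝ)) ∈ D.Kt := by
      refine ⟨?_, j, ?_⟩
      · simp only [habs]; exact h1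
      · intro i
        refine ⟨?_, ?_⟩
        · have : t.1 i * (D.s j i : ℝ) * (D.s j i : ℝ) = t.1 i * ((D.s j i : ℝ) * (D.s j i : ℝ)) := by ring
          show 0 ≤ t.1 i * (D.s j i : ℝ) * (D.s j i : ℝ)
          rw [this]
          exact mul_nonneg (h0 i) (mul_self_nonneg _)
        · intro h2
          show t.1 i * (D.s j i : ℝ) = 0
          rw [h2]; simp
    refine ⟨⟨_, hm⟩, Subtype.ext ?_⟩
    show (WithLp.toLp 2 (fun i => |t.1 i * (D.s j i : ℝ)|) : EuclideanSpace ℝ (Fin n)) = t.1
    ext i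
    exact habs i
  let q : Metric.sphere (0 : E) 1 → D.Kq := fun y => A (h.symm y)
  have hqc : Continuous q := hAc.comp h.symm.continuous
  have hqs : Function.Surjective q := hAs.comp h.symm.surjective
  have hneg : ∀ b : D.Kt, ((h ⟨-b.1, sup_neg D b.1 b.2⟩ : Metric.sphere (0 : E) 1) : E) = -((h b : Metric.sphere (0 : E) 1) : E) := by
    intro b
    rw [hh, hh]
    show (‖D.L (-b.1)‖)⁻¹ • D.L (-b.1) = -((‖D.L b.1‖)⁻¹ • D.L b.1)
    rw [L_neg, norm_neg, smul_neg]
  have hq1 : ∀ x y, anti E x y → q x = q y := by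
    intro x y hxy
    rcases hxy with h1 | h1
    · rw [Subtype.ext h1]
    · have h2 : h.symm x = ⟨-(h.symm y).1, sup_neg D _ (h.symm y).2⟩ := by
        apply h.injective
        apply Subtype.ext
        rw [hneg, h.apply_symm_apply, h.apply_symm_apply, h1]
      show A (h.symm x) = A (h.symm y)
      rw [h2]
      apply Subtype.ext
      show (WithLp.toLp 2 (fun i => |(-(h.symm y).1) i|) : EuclideanSpace ℝ (Fin n)) = WithLp.toLp 2 (fun i => |(h.symm y).1 i|)
      congr 1
      funext i
      rw [Pi.neg_apply, abs_neg]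
  have hq2 : ∀ x y, q x = q y → anti E x y := by
    intro x y hxy
    have h1 : (WithLp.toLp 2 (fun i => |(h.symm x).1 i|) : EuclideanSpace ℝ (Fin n)) = WithLp.toLp 2 (fun i => |(h.symm y).1 i|) :=
      congrArg Subtype.val hxy
    have h2 : ∀ i, |(h.symm x).1 i| = |(h.symm y).1 i| := by
      intro i
      exact congrFun (congrArg WithLp.ofLp h1) i
    rcases fibL n J E D _ _ (h.symm x).2 (h.symm y).2 h2 with h3 | h3
    · left
      have h4 : h.symm x = h.symm y := Subtype.ext h3
      rw [h.symm.injective h4]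
    · right
      have h4 : h.symm x = ⟨-(h.symm y).1, sup_neg D _ (h.symm y).2⟩ := Subtype.ext h3
      have h5 := hneg (h.symm y)
      rw [← h4, h.apply_symm_apply, h.apply_symm_apply] at h5
      exact h5
  let Q : Quot (anti E) → D.Kq := Quot.lift q hq1
  have hQc : Continuous Q := continuous_quot_lift hq1 hqc
  have hQb : Function.Bijective Q := by
    refine ⟨?_, ?_⟩
    · intro x y
      refine Quot.induction_on₂ x y fun x y hxy => ?_
      exact Quot.sound (hq2 x y hxy)
    · intro t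
      obtain ⟨x, hx⟩ := hqs t
      exact ⟨Quot.mk _ x, hx⟩
  haveI : CompactSpace (Metric.sphere (0 : E) 1) := inferInstance
  haveI : CompactSpace (Quot (anti E)) := Quot.compactSpace
  exact ⟨(Continuous.homeoOfEquivCompactToT2 (f := Equiv.ofBijective Q hQb) hQc).symm⟩

end Pool.Agent.Q185.RP6
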